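import Pool.Agent.P8H76.CY.Pol

/-!
# Package CY/ELI (for helper40), the algebra: partial evaluation of a polynomial in groups of variables
-/

set_option autoImplicit false

open MvPolynomial Pool.Agent.P8H76.CY

namespace Pool.Agent.P8H93.CY

variable {K : IntermediateField ℚ ℂ} {W : Submodule K ℂ} {σ τ : Type}

/-- a finite chain of conditions that holds at the empty set and not at the whole set has a step -/
theorem step {ι : Type} [Fintype ι] [DecidableEq ι] (p : Finset ι → Prop) (h0 : p ∅)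
    (h1 : ¬ p Finset.univ) : ∃ (b : ι) (s : Finset ι), b ∉ s ∧ p s ∧ ¬ p (insert b s) := by
  by_contra hc
  push Not at hc
  have key : ∀ s : Finset ι, p s := by
    intro s
    induction s using Finset.induction_on with
    | empty => exact h0
    | insert b s hb ih => exact hc b s hb ih
  exact h1 (key _)

/-- the coefficients are polynomials with coefficients in a power of `W` and bounded degrees -/
def B2 (W : Submodule K ℂ) (a δ : ℕ) (G : MvPolynomial τ (MvPolynomial σ ℂ)) : Prop :=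
  ∀ u, Bd W a δ (G.coeff u)

theorem B2.mono (h1 : (1 : ℂ) ∈ W) {a a' δ δ' : ℕ} {G : MvPolynomial τ (MvPolynomial σ ℂ)} (h : B2 W a δ G)
    (ha : a ≤ a') (hδ : δ ≤ δ') : B2 W a' δ' G := fun u => (h u).mono h1 ha hδ

theorem B2.sum {ι : Type*} {a δ : ℕ} (s : Finset ι) {G : ι → MvPolynomial τ (MvPolynomial σ ℂ)}
    (h : ∀ i ∈ s, B2 W a δ (G i)) : B2 W a δ (∑ i ∈ s, G i) := fun u => by
  rw [coeff_sum]
  exact Bd.sum _ fun i hi => h i hi u

theorem B2.mul {a a' δ δ' : ℕ} {G H : MvPolynomial τ (MvPolynomial σ ℂ)} (hG : B2 W a δ G)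
    (hH : B2 W a' δ' H) : B2 W (a + a') (δ + δ') (G * H) := by
  classical
  intro u
  rw [coeff_mul]
  exact Bd.sum _ fun c _ => (hG _).mul (hH _)

theorem B2.C {a δ : ℕ} {P : MvPolynomial σ ℂ} (h : Bd W a δ P) :
    B2 W a δ (MvPolynomial.C P : MvPolynomial τ (MvPolynomial σ ℂ)) := by
  classical
  intro u
  rw [coeff_C]
  split_ifs
  · exact h
  · exact Bd.zero _ _

theorem B2.one : B2 W 0 0 (1 : MvPolynomial τ (MvPolynomial σ ℂ)) := by
  have h := B2.C (τ := τ) (Bd.one (W := W) (σ := σ))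
  rwa [map_one] at h

theorem B2.X (x : τ) : B2 W 0 0 (MvPolynomial.X x : MvPolynomial τ (MvPolynomial σ ℂ)) := by
  classical
  intro u
  rw [coeff_X]
  split_ifs
  · exact Bd.one
  · exact Bd.zero _ _

theorem B2.pow {a δ : ℕ} {G : MvPolynomial τ (MvPolynomial σ ℂ)} (h : B2 W a δ G) (m : ℕ) :
    B2 W (m * a) (m * δ) (G ^ m) := by
  induction m with
  | zero => simpa using B2.one
  | succ m ih =>
    rw [pow_succ]
    have := ih.mul h
    rwa [show (m + 1) * a = m * a + a by ring, show (m + 1) * δ = m * δ + δ by ring]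

theorem B2.prod {ι : Type*} {a δ : ℕ} (s : Finset ι) {G : ι → MvPolynomial τ (MvPolynomial σ ℂ)}
    (h : ∀ i ∈ s, B2 W a δ (G i)) : B2 W (s.card * a) (s.card * δ) (∏ i ∈ s, G i) := by
  classical
  induction s using Finset.induction_on with
  | empty => simpa using B2.one
  | insert i s hi ih =>
    rw [Finset.prod_insert hi, Finset.card_insert_of_notMem hi]
    have := (h i (Finset.mem_insert_self _ _)).mul (ih fun j hj => h j (Finset.mem_insert_of_mem hj))
    rwa [show (s.card + 1) * a = a + s.card * a by ring, show (s.card + 1) * δ = δ + s.card * δ by ring]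

variable {k : ℕ}

open Classical in
/-- the values of the groups in `s` are inserted -/
noncomputable def part (w : Fin k → σ → ℂ) (s : Finset (Fin k)) :
    MvPolynomial (Fin k × σ) ℂ →+* MvPolynomial (Fin k × σ) ℂ :=
  eval₂Hom MvPolynomial.C fun y => if y.1 ∈ s then MvPolynomial.C (w y.1 y.2) else MvPolynomial.X y

open Classical in
/-- the values of the groups in `s` are inserted, and the variables of the group `b` are moved to the coefficients -/
noncomputable def phi (w : Fin k → σ → ℂ) (b : Fin k) (s : Finset (Fin k)) (y : Fin k × σ) :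
    MvPolynomial (Fin k × σ) (MvPolynomial σ ℂ) :=
  if y.1 = b then MvPolynomial.C (MvPolynomial.X y.2) else
    if y.1 ∈ s then MvPolynomial.C (MvPolynomial.C (w y.1 y.2)) else MvPolynomial.X y

/-- the substitution -/
noncomputable def Phi (w : Fin k → σ → ℂ) (b : Fin k) (s : Finset (Fin k)) :
    MvPolynomial (Fin k × σ) ℂ →+* MvPolynomial (Fin k × σ) (MvPolynomial σ ℂ) :=
  eval₂Hom (MvPolynomial.C.comp MvPolynomial.C) (phi w b s)

/-- back to `part w s` -/
noncomputable def Psi (b : Fin k) :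
    MvPolynomial (Fin k × σ) (MvPolynomial σ ℂ) →+* MvPolynomial (Fin k × σ) ℂ :=
  eval₂Hom (rename (R := ℂ) (fun x : σ => (b, x))).toRingHom MvPolynomial.X

theorem psi_phi (w : Fin k → σ → ℂ) {b : Fin k} {s : Finset (Fin k)} (hb : b ∉ s)
    (F : MvPolynomial (Fin k × σ) ℂ) : Psi b (Phi w b s F) = part w s F := by
  have h : (Psi b).comp (Phi w b s) = part w s := by
    apply MvPolynomial.ringHom_ext
    · intro r
      simp [Psi, Phi, part]
    · rintro ⟨l, x⟩
      by_cases hl : l = b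
      · subst hl
        simp [Psi, Phi, part, phi, hb]
      · by_cases hs : l ∈ s
        · simp [Psi, Phi, part, phi, hl, hs]
        · simp [Psi, Phi, part, phi, hl, hs]
  exact congrArg (fun g => g F) h

theorem map_phi (w : Fin k → σ → ℂ) (b : Fin k) (s : Finset (Fin k))
    (F : MvPolynomial (Fin k × σ) ℂ) :
    MvPolynomial.map (MvPolynomial.eval (w b)) (Phi w b s F) = part w (insert b s) F := by
  have h : (MvPolynomial.map (MvPolynomial.eval (w b))).comp (Phi w b s) = part w (insert b s) := by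
    apply MvPolynomial.ringHom_ext
    · intro r
      simp [Phi, part]
    · rintro ⟨l, x⟩
      by_cases hl : l = b
      · subst hl
        simp [Phi, part, phi]
      · by_cases hs : l ∈ s
        · simp [Phi, part, phi, hl, hs]
        · simp [Phi, part, phi, hl, hs]
  exact congrArg (fun g => g F) h

theorem bd_phi (h1 : (1 : ℂ) ∈ W) {w : Fin k → σ → ℂ} (b : Fin k) {s : Finset (Fin k)}
    (hs : ∀ l ∈ s, ∀ x, w l x ∈ W) (y : Fin k × σ) : B2 W 1 1 (phi w b s y) := by
  unfold phi
  split_ifs with h2 h3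
  · exact B2.C ((Bd.X _).mono h1 (Nat.zero_le _) le_rfl)
  · refine B2.C ((Bd.C (a := 1) ?_).mono h1 le_rfl (Nat.zero_le _))
    rw [pow_one]
    exact hs _ h3 _
  · exact (B2.X _).mono h1 (Nat.zero_le _) (Nat.zero_le _)

theorem bd_Phi [Fintype σ] (h1 : (1 : ℂ) ∈ W) {w : Fin k → σ → ℂ} (b : Fin k) {s : Finset (Fin k)}
    (hs : ∀ l ∈ s, ∀ x, w l x ∈ W) {a δ : ℕ} {F : MvPolynomial (Fin k × σ) ℂ} (hd : ∀ x, F.degreeOf x ≤ δ)
    (hc : ∀ u, F.coeff u ∈ W ^ a) :
    B2 W (a + k * Fintype.card σ * δ) (k * Fintype.card σ * δ) (Phi w b s F) := by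
  rw [Phi, coe_eval₂Hom, eval₂_eq']
  refine B2.sum _ fun u hu => ?_
  have e1 : B2 (τ := Fin k × σ) W a 0 ((MvPolynomial.C.comp MvPolynomial.C : ℂ →+* MvPolynomial (Fin k × σ) (MvPolynomial σ ℂ))
      (F.coeff u)) := by
    rw [RingHom.comp_apply]
    exact B2.C (Bd.C (hc u))
  have e2 := B2.prod (W := W) (a := δ) (δ := δ) Finset.univ (G := fun y => phi w b s y ^ u y) fun y _ =>
    ((bd_phi h1 b hs y).pow (u y)).mono h1 (by rw [mul_one]; exact (monomial_le_degreeOf y hu).trans (hd y))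
      (by rw [mul_one]; exact (monomial_le_degreeOf y hu).trans (hd y))
  rw [Finset.card_univ, Fintype.card_prod, Fintype.card_fin] at e2
  refine (e1.mul e2).mono h1 le_rfl ?_
  rw [zero_add]

theorem part_empty (w : Fin k → σ → ℂ) (F : MvPolynomial (Fin k × σ) ℂ) : part w ∅ F = F := by
  have h : part w ∅ = RingHom.id (MvPolynomial (Fin k × σ) ℂ) := by
    apply MvPolynomial.ringHom_ext
    · intro r
      simp [part]
    · rintro ⟨l, x⟩
      simp [part]
  rw [h, RingHom.id_apply]

theorem part_univ (w : Fin k → σ → ℂ) (F : MvPolynomial (Fin k × σ) ℂ) :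
    part w Finset.univ F = MvPolynomial.C (MvPolynomial.eval (fun x => w x.1 x.2) F) := by
  have h : part w Finset.univ = MvPolynomial.C.comp (MvPolynomial.eval (fun x : Fin k × σ => w x.1 x.2)) := by
    apply MvPolynomial.ringHom_ext
    · intro r
      simp [part]
    · rintro ⟨l, x⟩
      simp [part]
  rw [h, RingHom.comp_apply]

theorem eli0 (σ : Type) [Fintype σ] (k a δ : ℕ) (F : MvPolynomial (Fin k × σ) ℂ) (hF : F ≠ 0)
    (hd : ∀ x, F.degreeOf x ≤ δ) (w : Fin k → σ → ℂ) (he : MvPolynomial.eval (fun x => w x.1 x.2) F = 0) :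
    ∃ (b : Fin k) (s : Finset (Fin k)), b ∉ s ∧ ∀ (K : IntermediateField ℚ ℂ) (W : Submodule K ℂ), (1 : ℂ) ∈ W →
      (∀ u, F.coeff u ∈ W ^ a) → (∀ l ∈ s, ∀ x, w l x ∈ W) →
        ∃ P : MvPolynomial σ ℂ, P ≠ 0 ∧ (∀ x, P.degreeOf x ≤ k * Fintype.card σ * δ) ∧
          (∀ u, P.coeff u ∈ W ^ (a + k * Fintype.card σ * δ)) ∧ MvPolynomial.eval (w b) P = 0 := by
  classical
  obtain ⟨b, s, hb, h1, h2⟩ := step (fun s : Finset (Fin k) => part w s F ≠ 0) (by rw [part_empty]; exact hF)
    (by rw [part_univ, he, map_zero]; exact fun h => h rfl)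
  rw [not_not] at h2
  refine ⟨b, s, hb, fun K W h1W hc hs => ?_⟩
  have h3 : Phi w b s F ≠ 0 := by
    intro h
    apply h1
    rw [← psi_phi w hb F, h, map_zero]
  obtain ⟨u, hu⟩ := MvPolynomial.ne_zero_iff.1 h3
  have h4 := bd_Phi h1W b hs hd hc u
  refine ⟨(Phi w b s F).coeff u, hu, h4.2, h4.1, ?_⟩
  have h5 := congrArg (fun G => MvPolynomial.coeff u G) (map_phi w b s F)
  simp only [coeff_map, h2, coeff_zero] at h5
  exact h5

end Pool.Agent.P8H93.CY
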