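import Pool.Agent.P8H40.CY.Stm2
import Pool.Agent.P8H93.CY.Eli0

/-!
# Package CY/ELI (for helper40)
-/

set_option autoImplicit false

namespace Pool.Agent.P8H93.CY

open Pool.Agent.P8H40.CY

theorem eli : S_ELI := by
  intro σ _ k a δ
  refine ⟨a + k * Fintype.card σ * δ, k * Fintype.card σ * δ, fun F hF hd w he => ?_⟩
  obtain ⟨b, s, hb, h⟩ := eli0 σ k a δ F hF hd w he
  exact ⟨b, s, hb, fun K W h1 hc hs => h K W h1 hc hs⟩

end Pool.Agent.P8H93.CY
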