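import Pool.Agent.P8H40.CY.Stm3

/-!
# Package GEN of project CY (helper40)
-/

set_option autoImplicit false

open Module

namespace Pool.Agent.P8H93.CY

open Pool.Agent.P8H40.CY

/-- Generic complex points (as in the starting library). -/
theorem exists_indep (ι : Type) [Finite ι] : ∃ f : ι → ℂ, AlgebraicIndependent ℚ f := by
  obtain ⟨s, hs⟩ := exists_isTranscendenceBasis ℚ ℂ
  have h1 := IsAlgClosed.cardinal_eq_cardinal_transcendence_basis_of_aleph0_lt
    (R := ℚ) (K := ℂ) (fun x : s => (x : ℂ)) hs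
    (by simp) (by rw [Cardinal.mk_complex]; exact Cardinal.aleph0_lt_continuum)
  have h2 : Infinite s := by
    rw [Cardinal.infinite_iff]
    have : Cardinal.mk s = Cardinal.mk ℂ := by simpa using h1.symm
    rw [this, Cardinal.mk_complex]; exact Cardinal.aleph0_le_continuum
  obtain ⟨n, ⟨e⟩⟩ := Finite.exists_equiv_fin ι
  have e2 : Fin n ↪ s := (Fin.valEmbedding.trans (Infinite.natEmbedding s))
  exact ⟨fun i => (e2 (e i) : ℂ), hs.1.comp (fun i => e2 (e i)) (e2.injective.comp e.injective)⟩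

/-- the Cayley transform of a symmetric matrix -/
lemma cayley_gen {F : Type*} [Field F] {n : ℕ} {J S : Matrix (Fin n) (Fin n) F} (hJs : J.transpose = -J) (hJd : J.det ≠ 0)
    (hS : S.transpose = S) (hd : (1 - J⁻¹ * S).det ≠ 0) :
    ∃ g : Matrix (Fin n) (Fin n) F, g.transpose * J * g = J ∧ g * (1 - J⁻¹ * S) = 1 + J⁻¹ * S := by
  set U := J⁻¹ * S with hU
  have hJi : J * J⁻¹ = 1 := Matrix.mul_nonsing_inv _ (Ne.isUnit hJd)
  have h1 : U.transpose * J = -(J * U) := by
    have h2 : (J⁻¹).transpose * J = -1 := by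
      have h3 : (J * J⁻¹).transpose = 1 := by rw [hJi, Matrix.transpose_one]
      rw [Matrix.transpose_mul, hJs, Matrix.mul_neg] at h3
      rw [← h3, neg_neg]
    rw [hU, Matrix.transpose_mul, hS, Matrix.mul_assoc, h2, ← Matrix.mul_assoc, hJi, Matrix.one_mul, Matrix.mul_neg,
      Matrix.mul_one]
  have hA : (1 - U) * (1 - U)⁻¹ = 1 := Matrix.mul_nonsing_inv _ (Ne.isUnit hd)
  have hA' : (1 - U)⁻¹ * (1 - U) = 1 := Matrix.nonsing_inv_mul _ (Ne.isUnit hd)
  have h3 : (1 + U).transpose * J * (1 + U) = J * ((1 - U) * (1 + U)) := by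
    rw [Matrix.transpose_add, Matrix.transpose_one, Matrix.add_mul, Matrix.one_mul, h1]
    noncomm_ring
  have h4 : (1 - U).transpose * J * (1 - U) = J * ((1 - U) * (1 + U)) := by
    rw [Matrix.transpose_sub, Matrix.transpose_one, Matrix.sub_mul, Matrix.one_mul, h1]
    noncomm_ring
  refine ⟨(1 + U) * (1 - U)⁻¹, ?_, by rw [Matrix.mul_assoc, hA', Matrix.mul_one]⟩
  calc ((1 + U) * (1 - U)⁻¹).transpose * J * ((1 + U) * (1 - U)⁻¹)
      = ((1 - U)⁻¹).transpose * ((1 + U).transpose * J * (1 + U)) * (1 - U)⁻¹ := by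
        rw [Matrix.transpose_mul]
        simp only [Matrix.mul_assoc]
    _ = ((1 - U)⁻¹).transpose * ((1 - U).transpose * J * (1 - U)) * (1 - U)⁻¹ := by rw [h3, h4]
    _ = ((1 - U) * (1 - U)⁻¹).transpose * J * ((1 - U) * (1 - U)⁻¹) := by
        rw [Matrix.transpose_mul]
        simp only [Matrix.mul_assoc]
    _ = J := by rw [hA, Matrix.transpose_one, Matrix.one_mul, Matrix.mul_one]

/-- the relative algebraic closure in `ℂ` of a finitely generated algebra -/
noncomputable def relC (K : IntermediateField ℚ ℂ) (s : Set ℂ) : Subfield ℂ where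
  carrier := {z | IsAlgebraic (Algebra.adjoin K s) z}
  mul_mem' := fun ha hb => IsAlgebraic.mul ha hb
  one_mem' := isAlgebraic_one
  add_mem' := fun ha hb => IsAlgebraic.add ha hb
  zero_mem' := isAlgebraic_zero
  neg_mem' := fun ha => IsAlgebraic.neg ha
  inv_mem' := fun _ ha => IsAlgebraic.inv ha

lemma mem_relC {K : IntermediateField ℚ ℂ} {s : Set ℂ} {z : ℂ} :
    z ∈ relC K s ↔ IsAlgebraic (Algebra.adjoin K s) z := Iff.rfl

lemma subset_relC {K : IntermediateField ℚ ℂ} {s : Set ℂ} {z : ℂ} (hz : z ∈ s) : z ∈ relC K s := by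
  rw [mem_relC]
  exact isAlgebraic_algebraMap (⟨z, Algebra.subset_adjoin hz⟩ : Algebra.adjoin K s)

lemma base_relC {K : IntermediateField ℚ ℂ} {s : Set ℂ} (z : K) : (z : ℂ) ∈ relC K s := by
  rw [mem_relC]
  exact isAlgebraic_algebraMap (⟨z, Subalgebra.algebraMap_mem _ z⟩ : Algebra.adjoin K s)

lemma sq_relC {K : IntermediateField ℚ ℂ} {s : Set ℂ} (z : ℂ) (hz : z ^ 2 ∈ relC K s) : z ∈ relC K s := by
  rw [mem_relC] at *
  exact hz.of_pow (by norm_num)

lemma sy_transpose {R : Type*} {n : ℕ} (y : Tri n → R) : (sy y).transpose = sy y := by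
  ext i j
  simp only [sy, Matrix.transpose_apply, Matrix.of_apply]
  congr 1
  apply Subtype.ext
  simp only [Prod.mk.injEq]
  exact ⟨min_comm _ _, max_comm _ _⟩

lemma sy_le {R : Type*} {n : ℕ} (y : Tri n → R) (p : Tri n) : sy y p.1.1 p.1.2 = y p := by
  simp only [sy, Matrix.of_apply]
  congr 1
  exact Subtype.ext (Prod.ext (min_eq_left p.2) (max_eq_right p.2))

lemma card_tri (n : ℕ) : Fintype.card (Tri n) = n * (n + 1) / 2 := by
  have h1 : Fintype.card (Sym2 (Fin n)) = Fintype.card (Tri n) := Fintype.card_congr Sym2.sortEquiv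
  rw [← h1, Sym2.card, Fintype.card_fin, Nat.choose_two_right, Nat.add_sub_cancel, Nat.mul_comm]

/-- the determinant is not zero at a generic point -/
lemma det_gen {n : ℕ} (Ji : Matrix (Fin n) (Fin n) ℚ) (y : Tri n → ℂ) (hy : AlgebraicIndependent ℚ y) :
    (1 - Ji.map (algebraMap ℚ ℂ) * sy y).det ≠ 0 := by
  classical
  set P : MvPolynomial (Tri n) ℚ := (1 - Ji.map MvPolynomial.C * sy (fun p => (MvPolynomial.X p : MvPolynomial (Tri n) ℚ))).det with hP
  have h1 : MvPolynomial.aeval y P = (1 - Ji.map (algebraMap ℚ ℂ) * sy y).det := by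
    rw [hP, AlgHom.map_det]
    congr 1
    ext i j
    simp only [AlgHom.mapMatrix_apply, Matrix.map_apply, Matrix.sub_apply, Matrix.mul_apply, map_sub, map_mul,
      MvPolynomial.algHom_C, sy, Matrix.of_apply, MvPolynomial.aeval_X, Matrix.one_apply]
    congr 1
    split_ifs <;> simp
  have h2 : MvPolynomial.aeval (fun _ : Tri n => (0 : ℚ)) P = 1 := by
    rw [hP, AlgHom.map_det]
    have : ((MvPolynomial.aeval (fun _ : Tri n => (0 : ℚ))).mapMatrix
        (1 - Ji.map MvPolynomial.C * sy (fun p => (MvPolynomial.X p : MvPolynomial (Tri n) ℚ)))) = 1 := by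
      ext i j
      simp only [AlgHom.mapMatrix_apply, Matrix.map_apply, Matrix.sub_apply, Matrix.mul_apply, map_sub, map_mul,
        MvPolynomial.algHom_C, sy, Matrix.of_apply, MvPolynomial.aeval_X, Matrix.one_apply, mul_zero, Finset.sum_const_zero,
        sub_zero]
      split_ifs <;> simp
    rw [this, Matrix.det_one]
  rw [← h1]
  intro h3
  have h4 : P = 0 := hy.eq_zero_of_aeval_eq_zero _ h3
  rw [h4, map_zero] at h2
  exact zero_ne_one h2

lemma map_inv {n : ℕ} {J : Matrix (Fin n) (Fin n) ℚ} (hJ : J.det ≠ 0) :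
    (J⁻¹).map (algebraMap ℚ ℂ) = (J.map (algebraMap ℚ ℂ))⁻¹ := by
  symm
  apply Matrix.inv_eq_right_inv
  rw [← Matrix.map_mul, Matrix.mul_nonsing_inv _ (Ne.isUnit hJ)]
  exact Matrix.map_one _ (map_zero _) (map_one _)

theorem gen : S_REC → S_GEN := by
  intro hrec n k hn hk K hK J Jl hJs hJd hJl hX R U hR hU
  classical
  obtain ⟨f, hf0⟩ := exists_indep (Fin k ⊕ ((Fin k × Tri n) ⊕ Unit))
  have : Algebra.IsAlgebraic ℚ K := Algebra.IsAlgebraic.of_finite ℚ K
  have hf : AlgebraicIndependent K f := hf0.extendScalars K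
  choose X₀ hX₀ using hX
  set Y : Fin k → Tri n → ℂ := fun l p => f (Sum.inr (Sum.inl (l, p))) with hY
  set ν : ℂ := f (Sum.inr (Sum.inr ())) with hν
  have hν0 : ν ≠ 0 := hf0.ne_zero _
  have hYi : ∀ l, AlgebraicIndependent ℚ (Y l) := fun l =>
    hf0.comp (fun p => Sum.inr (Sum.inl (l, p))) (fun p q h => by simpa using h)
  have hd : ∀ l, (1 - ((J l)⁻¹).map (algebraMap ℚ ℂ) * sy (Y l)).det ≠ 0 := fun l => det_gen _ _ (hYi l)
  have hJc : ∀ l, ((J l).map (algebraMap ℚ ℂ)).det ≠ 0 := fun l => by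
    have h1 : ((J l).map (algebraMap ℚ ℂ)).det = algebraMap ℚ ℂ (J l).det := by
      rw [RingHom.map_det]; rfl
    rw [h1]
    exact (map_ne_zero _).2 (hJd l)
  have hJt : ∀ l, ((J l).map (algebraMap ℚ ℂ)).transpose = -(J l).map (algebraMap ℚ ℂ) := fun l => by
    rw [← Matrix.transpose_map, hJs l]
    ext i j
    simp
  have hcay : ∀ l, ∃ h : Matrix (Fin n) (Fin n) ℂ, h.transpose * (J l).map (algebraMap ℚ ℂ) * h = (J l).map (algebraMap ℚ ℂ) ∧
      h * (1 - ((J l)⁻¹).map (algebraMap ℚ ℂ) * sy (Y l)) = 1 + ((J l)⁻¹).map (algebraMap ℚ ℂ) * sy (Y l) := fun l => by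
    have h1 := hd l
    rw [map_inv (hJd l)] at h1 ⊢
    exact cayley_gen (hJt l) (hJc l) (sy_transpose _) h1
  choose h hh1 hh2 using hcay
  -- the equivalence
  have hcard : Fintype.card (Fin (k * (n * (n + 1) / 2) + 1)) = Fintype.card ((Fin k × Tri n) ⊕ Unit) := by
    rw [Fintype.card_sum, Fintype.card_prod, card_tri]
    simp
  set e := Fintype.equivOfCardEq hcard with he
  set L : Fin k → ℂ := fun l => f (Sum.inl l) with hL
  set X : Fin k → Matrix (Fin n) (Fin n) ℂ := fun l => ν • (h l * (X₀ l).map (algebraMap ℚ ℂ)) with hXd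
  refine ⟨ν ^ 2, L, X, fun i => f (Sum.inr (e i)), pow_ne_zero 2 hν0, ?_, ?_, ?_⟩
  · intro l
    have h1 : (X l).transpose * (J l).map (algebraMap ℚ ℂ) * X l =
        ν ^ 2 • (((X₀ l).map (algebraMap ℚ ℂ)).transpose * ((h l).transpose * (J l).map (algebraMap ℚ ℂ) * h l) *
          (X₀ l).map (algebraMap ℚ ℂ)) := by
      rw [hXd]
      simp only [Matrix.transpose_smul, Matrix.transpose_mul, Matrix.smul_mul, Matrix.mul_smul, smul_smul, Matrix.mul_assoc, sq]
    rw [h1, hh1 l, ← Matrix.transpose_map, ← Matrix.map_mul, ← Matrix.map_mul, hX₀ l]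
  · have h1 : (Sum.elim L (fun i => f (Sum.inr (e i))) : Fin k ⊕ Fin (k * (n * (n + 1) / 2) + 1) → ℂ) = f ∘ Sum.map id e := by
      funext i
      rcases i with i | i <;> rfl
    rw [h1]
    exact hf.comp _ (Function.Injective.sumMap Function.injective_id e.injective)
  · set s : Set ℂ := Set.range L ∪ Set.range fun p : Fin k × Fin n × Fin n =>
        ((R p.1).map (algebraMap K ℂ) * X p.1 * (U p.1).map (algebraMap K ℂ)) p.2.1 p.2.2 with hs
    have key : ∀ l, ν ∈ relC K s ∧ ∀ i j, sy (Y l) i j ∈ relC K s := by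
      intro l
      refine hrec n hn (relC K s) (fun z hz => sq_relC z hz) (J l) (X₀ l) (hJd l) ?_ ((R l).map (algebraMap K ℂ))
        ((U l).map (algebraMap K ℂ)) (sy (Y l)) (h l) ν ?_ ?_ ?_ ?_ hν0 (hd l) (hh2 l) (hh1 l) ?_
      · rw [hX₀ l]; exact hJl
      · intro i j
        exact base_relC _
      · intro i j
        exact base_relC _
      · have h1 : ((R l).map (algebraMap K ℂ)).det = algebraMap K ℂ (R l).det := by
          rw [RingHom.map_det]; rfl
        rw [h1]
        exact (map_ne_zero _).2 (hR l)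
      · have h1 : ((U l).map (algebraMap K ℂ)).det = algebraMap K ℂ (U l).det := by
          rw [RingHom.map_det]; rfl
        rw [h1]
        exact (map_ne_zero _).2 (hU l)
      · intro i j
        exact subset_relC (Or.inr ⟨(l, i, j), rfl⟩)
    intro i
    show f (Sum.inr (e i)) ∈ relC K s
    rcases e i with ⟨l, p⟩ | u
    · have := (key l).2 p.1.1 p.1.2
      rwa [sy_le] at this
    · exact (key ⟨0, hk⟩).1

end Pool.Agent.P8H93.CY
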